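import Mathlib
import Pool.Agent.W936.SS.Dst5

/-!
# Blackbox singularity and rank tests for matrices built along a line, for instance semiseparable

We give explicit sets of polynomially many integer points of polynomial length which preserve the
rank of every submatrix, for every matrix of the following kind. The matrices are built along a line
with `R` ports (`Strip`): polynomials are added to the entries at the ports, polynomial multiples of
the columns (rows) of ports are added to the columns (rows) of ports, and ports are replaced by new
indices. The order of the matrix, the number of operations and the degrees are unbounded, every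
variable occurs in a bounded number of the polynomials of the description, which are sparse, or
computed by nested linear programs of bounded width.

These matrices are in general dense, and a variable occurs in unboundedly many entries. They include
the sequentially semiseparable (quasiseparable) matrices (`Gens`) with blocks
`a_i A_{i+1} ⋯ A_{j-1} b_j` above and similar blocks below the diagonal; these are the matrices
of bounded linear rank-width, whereas the matrices of bounded path-width (linear width) are sparse.

The proof: the determinants of the matrices with Boolean entries added at the ports satisfy linear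
recurrences, whose coefficients are constants or constant multiples of the polynomial of the step
(`Pool.Agent.W936.SS`). So the determinant is computed by a linear program of bounded width, and the
points hit all factors of products of such polynomials. The square of a minor is up to a unit the
determinant of a matrix of the same kind with `2 R` ports, the symmetric double: the rows and
columns which do not belong to the minor are removed when they cease to be ports.
-/

set_option autoImplicit false

namespace Pool.Agent.Results.MP_08e617_lc.BlackboxSemiseparable

open MvPolynomial

open Pool.Agent.Results.MP_e2be99_lc.FormulasOverSparse (points points_card points_bound bnd)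

open Pool.Agent.W936.SS Pool.Agent.W936.VN

/-- Let `w, D, R` be fixed. There are `k, m` such that the explicit set
`points n m ((s + 5) ^ k) d (1, …, 1)` of polynomially many integer points of polynomial length has
the following properties, for all matrices built along a line with `R` ports from polynomials in the
class `Prg w s D` (for `D = 0`, polynomials with at most `s` monomials), where every variable occurs
in at most `w` polynomials of each description.
* (`Hits`, `SMinor`) Every factor of degree at most `d` of a product of nonzero minors of such
  matrices does not vanish at one of the points.
* (`Tests`) Such a matrix whose determinant has degree at most `d` is nonsingular if and only if it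
  is nonsingular at one of the points. The rank over the field of rational functions of every `a × b`
  submatrix whose entries have degree at most `δ` is its maximal rank at the points, if
  `min a b * δ ≤ d`.

The same holds for sequentially semiseparable matrices of any order, with blocks of a fixed size `q`
and transition matrices of a fixed size `r`, where every variable occurs in the generators of at
most `w` indices. -/
theorem result :
    (∀ w D R : ℕ, ∃ k m : ℕ, ∀ n d s : ℕ,
      (points n m ((s + 5) ^ k) d fun _ => 1).card ≤
        ((s + 5) ^ k * d + 1) * ((d + 1) * (n * d + 1)) ^ m ∧
      (∀ p ∈ points n m ((s + 5) ^ k) d fun _ => 1, ∀ i, |p i| ≤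
        ((2 ^ (n * (s + 5) ^ k * d) + m * d * (n * d + n) ^ (n - 1) : ℕ) : ℤ)) ∧
      Hits (points n m ((s + 5) ^ k) d fun _ => 1) d (SMinor w s D R) ∧
      ∀ T : Strip R n, T.Entries (Prg w s D) → (∀ x, T.reads x ≤ w) →
        Tests (points n m ((s + 5) ^ k) d fun _ => 1) d T.mat) ∧
    (∀ w D r q : ℕ, ∃ k m : ℕ, ∀ n d s : ℕ,
      (points n m ((s + 6) ^ k) d fun _ => 1).card ≤
        ((s + 6) ^ k * d + 1) * ((d + 1) * (n * d + 1)) ^ m ∧
      (∀ p ∈ points n m ((s + 6) ^ k) d fun _ => 1, ∀ i, |p i| ≤
        ((2 ^ (n * (s + 6) ^ k * d) + m * d * (n * d + n) ^ (n - 1) : ℕ) : ℤ)) ∧
      Hits (points n m ((s + 6) ^ k) d fun _ => 1) d (Minor w s D r q) ∧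
      ∀ (N : ℕ) (G : Gens (Fin r) (Fin q) n), G.All N (Prg w s D) → (∀ x, G.count N x ≤ w) →
        Tests (points n m ((s + 6) ^ k) d fun _ => 1) d (G.mat N)) := by
  have hb : ∀ {n m A d : ℕ}, ∀ p ∈ points n m A d fun _ => 1, ∀ i, |p i| ≤
      ((2 ^ (n * A * d) + m * d * (n * d + n) ^ (n - 1) : ℕ) : ℤ) := by
    intro n m A d p hp i
    have h1 := points_bound (σ := fun _ : Fin n => (1 : ℤ)) (fun _ => one_ne_zero) hp i
    rw [abs_one, one_mul] at h1
    exact h1
  constructor
  · intro w D R
    obtain ⟨k, m, h⟩ := prg_points (2 * w + 2 ^ ((R + R) * (R + R))) (D + 1)
      (le_trans Nat.one_le_two_pow (Nat.le_add_left _ _))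
    refine ⟨k, m, fun n d s => ?_⟩
    have hh : Hits (points n m ((s + 5) ^ k) d fun _ => 1) d (SMinor w s D R) :=
      hits_of (h n d (s + 2)) fun h hh => sminor_prg hh
    exact ⟨points_card _ _ _ _, hb, hh, fun T hT hr => tests_of_hits hh fun b u v h0 =>
      ⟨h0, T, b, u, v, hT, hr, rfl⟩⟩
  · intro w D r q
    obtain ⟨k, m, h⟩ := minors_points w D r q
    refine ⟨k, m, fun n d s => ?_⟩
    have hh : Hits (points n m ((s + 6) ^ k) d fun _ => 1) d (Minor w s D r q) := h n d s
    exact ⟨points_card _ _ _ _, hb, hh, fun N G hG hr => tests_of_hits hh fun b u v h0 =>
      ⟨h0, N, G, b, u, v, hG, hr, rfl⟩⟩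

end Pool.Agent.Results.MP_08e617_lc.BlackboxSemiseparable
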