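import Mathlib
import Pool.Agent.W981.Des.Loc

/-!
# Singularity of symmetric polynomial matrices with a large space of coefficient matrices

Let `K` be a field of characteristic zero and let

  `L = B + ∑ t_k A_k`

be a symmetric `n × n` matrix of affine linear forms in the variables `t_k`, `k ∈ σ`, with `B` and
`A_k` symmetric.  We call the family `A_k` `κ`-dense if the codimension of the span of the `A_k` in
the space of all symmetric matrices is less than `(κ + 1)(n - 3(κ + 2)²)`.  For instance this holds
if the codimension is at most `κn` and `n > 3(κ + 1)(κ + 2)²`.  There is no condition on `B`.  The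
span of the `A_k` may contain no nonzero matrix of rank at most `κ`.

For `κ`-dense families we prove the following.

(1) *A local maximum of the rank is a global maximum.*  If the rank of `L(h)` at a point `h ∈ K^σ`
is smaller than the rank of `L` over `K(t)`, then there is an integer vector `λ ≥ 0` with at most
`κ + 5` nonzero coordinates and `∑ λ_k ≤ n` such that `rank L(h) < rank L(h + λ)`.  For fixed `κ`
there are polynomially many such vectors `λ`.  So a point where the rank of `L` is attained is
found in at most `n` rounds, by a polynomial number of rank computations over `K` at integer points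
of small size, and singularity of `L` is decided in polynomial time.

(2) *A formula for the rank.*  The rank of `L` is the minimum of `n - dim U + dim L(U ⊗ K(t))` over
the subspaces `U` of `K^n`, and the minimum is attained by a subspace of dimension at most `κ`.  So
`L` is singular if and only if there is a subspace `U` of dimension at most `κ` such that
`dim L(U ⊗ K(t)) < dim U`.

(3) *Polynomial matrices.*  Let `B(s)` and `A_k(s)` be symmetric matrices of polynomials in further
variables `s`, which may be arbitrary, such that the family `A_k(s)` is `κ`-dense for the integer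
points `s ≥ 0` of small weight.  Let `M = B(s) + ∑ t_k A_k(s)`.  Then `rank M ≤ r` if and only if
for all these integer points `s` there is a subspace `U` as in (2); the condition on `U` can be
checked at the integer points `x ≥ 0` with `∑ x_k ≤ κ`.  In particular the rank and the singularity
of `M` are decided in polynomial time for a fixed number of variables `s`, by (1) at the points `s`.

The proof.  Let `r` be the rank at `h` and assume that the rank is at most `r` at all points which
differ from `h` in at most `κ + 5` coordinates.  For a point `x` near `h` with `rank L(x) = r` let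
`Z(x)` be the kernel of `L(x)`, `s = n - r` its dimension, `E(x)` the span of the vectors `A_k z`,
`z ∈ Z(x)`, and `e(x)` its codimension.  Let `d_c` be the dimension of the span of the `Z(x)` for
all such points which differ from `h` in at most `c` coordinates.  The derivatives of the equation
`L z = 0` show `n + s ≤ e(x) + d_{c + 1}`.  The orthogonal complement `N` of the `A_k` in the space
of symmetric matrices contains the matrices `z wᵀ + w zᵀ`, `z ∈ Z(x)`, `w` orthogonal to `E(x)`.
Counting these matrices in two ways gives `d_κ ≤ κ` or `e(x) ≤ 3κ + 2` for some point `x` which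
differs from `h` in at most `κ + 2` coordinates.  In the first case `U`, the span of the `Z(x)`,
gives the formula.  The second case is impossible: by the second derivatives `N` contains the
matrices `u τ_k(v)ᵀ + τ_k(v) uᵀ + v τ_k(u)ᵀ + τ_k(u) vᵀ` for `u, v ∈ Z(y)`, where `τ_k(v)` is a
solution of `L(y) τ_k(v) = A_k v`, and for `κ + 1` suitable points `y` near `x` these matrices span
a space which is too large.
-/

set_option autoImplicit false

open MvPolynomial Matrix Module

namespace Pool.Agent.Results.MP_08e617_lc.DenseSymmetric

/-- The rank of a matrix of polynomials over the field of rational functions. -/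
noncomputable def symbolicRank {K n τ : Type*} [Field K] [Fintype n]
    (M : Matrix n n (MvPolynomial τ K)) : ℕ :=
  (M.map (algebraMap (MvPolynomial τ K) (FractionRing (MvPolynomial τ K)))).rank

/-- The matrix `B + ∑ k, t_k A_k` with entries in `K[t_k : k ∈ σ]`. -/
noncomputable def affineMatrix {K n σ : Type*} [Field K] [Fintype σ]
    (B : Matrix n n K) (A : σ → Matrix n n K) : Matrix n n (MvPolynomial σ K) :=
  B.map C + ∑ k, (X k : MvPolynomial σ K) • (A k).map C

/-- The matrix `B + ∑ k, h_k A_k` over `K`, for a point `h ∈ K^σ`. -/
def pointMatrix {K n σ : Type*} [Field K] [Fintype σ]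
    (B : Matrix n n K) (A : σ → Matrix n n K) (h : σ → K) : Matrix n n K :=
  B + ∑ k, h k • A k

/-- The matrix `B(s) + ∑ k, t_k A_k(s)` with entries in `K[s_l, t_k : l ∈ β, k ∈ σ]`. -/
noncomputable def mixedMatrix {K n β σ : Type*} [Field K] [Fintype σ]
    (B : Matrix n n (MvPolynomial β K)) (A : σ → Matrix n n (MvPolynomial β K)) :
    Matrix n n (MvPolynomial (β ⊕ σ) K) :=
  B.map (rename Sum.inl) + ∑ k, (X (Sum.inr k) : MvPolynomial (β ⊕ σ) K) •
    (A k).map (rename Sum.inl)

/-- The value at the integer point `s` of a matrix with polynomial entries. -/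
noncomputable def valueAt {K n β : Type*} [Field K] (M : Matrix n n (MvPolynomial β K))
    (s : β → ℕ) : Matrix n n K :=
  M.map (eval fun l => (s l : K))

/-- The extension of scalars `W ⊗ K(t)` of a subspace `W` of `K^n`, a subspace of `K(t)^n`. -/
noncomputable def extendSpace {K n : Type*} (σ : Type*) [Field K] (W : Submodule K (n → K)) :
    Submodule (FractionRing (MvPolynomial σ K)) (n → FractionRing (MvPolynomial σ K)) :=
  Submodule.span (FractionRing (MvPolynomial σ K))
    ((fun (w : n → K) (i : n) => algebraMap K (FractionRing (MvPolynomial σ K)) (w i)) ''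
      (W : Set (n → K)))

/-- The dimension over `K(t)` of the image `L (U ⊗ K(t))`, where `L = B + ∑ t_k A_k`. -/
noncomputable def symbolicDim {K n σ : Type*} [Field K] [Fintype n] [Fintype σ]
    (B : Matrix n n K) (A : σ → Matrix n n K) (U : Submodule K (n → K)) : ℕ :=
  finrank (FractionRing (MvPolynomial σ K))
    ((extendSpace σ U).map ((affineMatrix B A).map
      (algebraMap (MvPolynomial σ K) (FractionRing (MvPolynomial σ K)))).mulVecLin)

/-- The dimension over `K` of the image of `U` under `B + ∑ x_k A_k`, for an integer point `x`. -/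
noncomputable def pointDim {K n σ : Type*} [Field K] [Fintype n] [Fintype σ]
    (B : Matrix n n K) (A : σ → Matrix n n K) (U : Submodule K (n → K)) (x : σ → ℕ) : ℕ :=
  finrank K (U.map (pointMatrix B A fun k => (x k : K)).mulVecLin)

/-- The codimension of the span of the `A_k` in the space of all symmetric `n × n` matrices, which
has dimension `(n + 1) n / 2`, is less than `(κ + 1)(n - 3(κ + 2)²)`. -/
def DenseFamily {K n σ : Type*} [Field K] [Fintype n] (A : σ → Matrix n n K) (κ : ℕ) : Prop :=
  (Fintype.card n + 1).choose 2 + (κ + 1) * (3 * (κ + 2) ^ 2) <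
    finrank K (Submodule.span K (Set.range A)) + (κ + 1) * Fintype.card n

/-- A certificate for `rank (B + ∑ t_k A_k) ≤ r`: a subspace `U` of `K^n` of dimension at most `κ`
with `n + dim (B + ∑ x_k A_k) U ≤ r + dim U` for all integer vectors `x ≥ 0` with `∑ x_k ≤ κ`. -/
def Certificate {K n σ : Type*} [Field K] [Fintype n] [Fintype σ]
    (B : Matrix n n K) (A : σ → Matrix n n K) (κ r : ℕ) : Prop :=
  ∃ U : Submodule K (n → K), finrank K U ≤ κ ∧ ∀ x : σ → ℕ, ∑ k, x k ≤ κ →
    Fintype.card n + pointDim B A U x ≤ r + finrank K U

theorem symbolicRank_eq {K n σ : Type*} [Field K] [Fintype n] [Fintype σ]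
    (B : Matrix n n K) (A : σ → Matrix n n K) :
    symbolicRank (affineMatrix B A) = (W981.Aff.gaf B A).rank := by
  classical
  exact (W981.Aff.rank_gaf B A).symm

theorem symbolicDim_eq {K n σ : Type*} [Field K] [Fintype n] [Fintype σ]
    (B : Matrix n n K) (A : σ → Matrix n n K) (U : Submodule K (n → K)) :
    symbolicDim B A U = W981.Den.sdim B A U := by
  classical
  rw [W981.Den.sdim, W981.Aff.gaf_eq_afs]
  rfl

/-- The dimension of the space of symmetric matrices. -/
theorem finrank_symSp {K n : Type*} [Field K] [Fintype n] [DecidableEq n] :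
    finrank K (W981.Des.symSp n K) = (Fintype.card n + 1).choose 2 := by
  let e : W981.Des.symSp n K ≃ₗ[K] (Sym2 n → K) :=
    { toFun := fun M => Sym2.lift ⟨fun i j => M.1 i j, fun i j =>
        congrFun (congrFun (show M.1ᵀ = M.1 from M.2) j) i⟩
      map_add' := fun M N => by
        funext p
        induction p using Sym2.ind with
        | _ i j => rfl
      map_smul' := fun c M => by
        funext p
        induction p using Sym2.ind with
        | _ i j => rfl
      invFun := fun f => ⟨Matrix.of fun i j => f s(i, j), by
        change (Matrix.of fun i j => f s(i, j))ᵀ = _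
        ext i j
        rw [transpose_apply, Matrix.of_apply, Matrix.of_apply, Sym2.eq_swap]⟩
      left_inv := fun M => by
        apply Subtype.ext
        ext i j
        rfl
      right_inv := fun f => by
        funext p
        induction p using Sym2.ind with
        | _ i j => rfl }
  rw [e.finrank_eq, finrank_fintype_fun_eq_card, Sym2.card]

theorem dense_iff {K n σ : Type*} [Field K] [Fintype n] [DecidableEq n]
    {A : σ → Matrix n n K} {κ : ℕ} (h : DenseFamily A κ) : W981.Des.DenseS A κ := by
  rw [DenseFamily] at h
  rw [W981.Des.DenseS, finrank_symSp]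
  have e : (κ + 1) * (3 * (κ + 2) ^ 2) = 3 * ((κ + 1) * ((κ + 2) * (κ + 2))) := by ring
  rw [e] at h
  exact h

/-- A certificate bounds the rank. -/
theorem rank_le_of_certificate {K n σ : Type*} [Field K] [CharZero K] [Fintype n]
    [Fintype σ] (B : Matrix n n K) (A : σ → Matrix n n K) {κ r : ℕ} (h : Certificate B A κ r) :
    (W981.Aff.gaf B A).rank ≤ r := by
  classical
  obtain ⟨U, hU, h⟩ := h
  obtain ⟨lam, h1, h2⟩ := W981.Den.sdim_point B A U
  have h3 := h lam (h1.trans hU)
  have h4 : pointDim B A U lam = W981.Den.sdim B A U := h2
  have h5 := W981.Den.sdim_upper B A U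
  omega

/-- The certificates exist for dense families. -/
theorem exists_certificate {K n σ : Type*} [Field K] [CharZero K] [Fintype n]
    [Fintype σ] {B : Matrix n n K} {A : σ → Matrix n n K} {κ r : ℕ} (hB : Bᵀ = B)
    (hS : ∀ k, (A k)ᵀ = A k) (hA : DenseFamily A κ) (hr : (W981.Aff.gaf B A).rank ≤ r) :
    Certificate B A κ r := by
  classical
  obtain ⟨U, hU, h⟩ := W981.Des.sym_exists hB hS (dense_iff hA)
  refine ⟨U, hU, fun x _ => ?_⟩
  have h1 : pointDim B A U x ≤ W981.Den.sdim B A U := W981.Den.sdim_le B A U _
  omega

/-- **Result.**  Let `K` be a field of characteristic zero and `κ` a natural number.  Let `B` and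
`A_k` be symmetric `n × n` matrices over `K` such that the family `A_k` is `κ`-dense, and
`L = B + ∑ t_k A_k`.
(1) If the rank of `L(h) = B + ∑ h_k A_k` at a point `h` is smaller than the rank of `L`, then there
is an integer vector `λ ≥ 0` with at most `κ + 5` nonzero coordinates and `∑ λ_k ≤ n` such that
`rank L(h) < rank L(h + λ)`.
(2) For all subspaces `U` of `K^n` one has `rank L ≤ n - dim U + dim L(U ⊗ K(t))`.  Equality holds
for some `U` with `dim U ≤ κ`.  The polynomial `det L` is zero if and only if there is a subspace
`U` with `dim U ≤ κ` and `dim L(U ⊗ K(t)) < dim U`.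
(3) Let `B` and `A_k` be symmetric matrices over `K[s]` whose entries have degree at most `d + 1`
and `d`, such that the family `A_k(s)` is `κ`-dense for all integer vectors `s ≥ 0` with
`∑ s_l ≤ (r + 1)(d + 1)`.  Then `rank (B(s) + ∑ t_k A_k(s)) ≤ r` over `K(s, t)` if and only if for
all these `s` the rank of the matrix at `s` is at most `r`, and if and only if for all these `s`
there is a certificate for the family `B(s)`, `A_k(s)`. -/
theorem result.{u, v} {K : Type u} [Field K] [CharZero K] (κ : ℕ) :
    (∀ {n σ : Type v} [Fintype n] [Fintype σ] (B : Matrix n n K)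
      (A : σ → Matrix n n K), Bᵀ = B → (∀ k, (A k)ᵀ = A k) → DenseFamily A κ → ∀ h : σ → K,
      (pointMatrix B A h).rank < symbolicRank (affineMatrix B A) →
      ∃ lam : σ → ℕ, Nat.card {k // lam k ≠ 0} ≤ κ + 5 ∧ ∑ k, lam k ≤ Fintype.card n ∧
        (pointMatrix B A h).rank < (pointMatrix B A fun k => h k + (lam k : K)).rank) ∧
    (∀ {n σ : Type v} [Fintype n] [DecidableEq n] [Fintype σ] (B : Matrix n n K)
      (A : σ → Matrix n n K), Bᵀ = B → (∀ k, (A k)ᵀ = A k) → DenseFamily A κ →
      (∀ U : Submodule K (n → K), symbolicRank (affineMatrix B A) + finrank K U ≤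
        Fintype.card n + symbolicDim B A U) ∧
      (∃ U : Submodule K (n → K), finrank K U ≤ κ ∧
        symbolicRank (affineMatrix B A) + finrank K U = Fintype.card n + symbolicDim B A U) ∧
      ((affineMatrix B A).det = 0 ↔
        ∃ U : Submodule K (n → K), finrank K U ≤ κ ∧ symbolicDim B A U < finrank K U)) ∧
    (∀ {n β σ : Type v} [Fintype n] [Fintype β] [Fintype σ]
      (B : Matrix n n (MvPolynomial β K)) (A : σ → Matrix n n (MvPolynomial β K)) (d r : ℕ),
      Bᵀ = B → (∀ k, (A k)ᵀ = A k) →
      (∀ i j, (B i j).totalDegree ≤ d + 1) → (∀ k i j, (A k i j).totalDegree ≤ d) →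
      (∀ s : β → ℕ, ∑ l, s l ≤ (r + 1) * (d + 1) →
        DenseFamily (fun k => valueAt (A k) s) κ) →
      ((symbolicRank (mixedMatrix B A) ≤ r ↔
        ∀ s : β → ℕ, ∑ l, s l ≤ (r + 1) * (d + 1) →
          symbolicRank (affineMatrix (valueAt B s) fun k => valueAt (A k) s) ≤ r) ∧
      (symbolicRank (mixedMatrix B A) ≤ r ↔
        ∀ s : β → ℕ, ∑ l, s l ≤ (r + 1) * (d + 1) →
          Certificate (valueAt B s) (fun k => valueAt (A k) s) κ r))) := by
  refine ⟨?_, ?_, ?_⟩
  · intro n σ _ _ B A hB hS hA h hh
    classical
    rw [symbolicRank_eq] at hh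
    obtain ⟨lam, h1, h2, h3⟩ := W981.Des.sym_search hB hS (dense_iff hA) h hh
    refine ⟨lam, ?_, h2, h3⟩
    rw [Nat.card_eq_fintype_card, Fintype.card_subtype]
    exact h1
  · intro n σ _ _ _ B A hB hS hA
    have hdec : DecidableEq σ := Classical.decEq σ
    have h1 : ∀ U : Submodule K (n → K), symbolicRank (affineMatrix B A) + finrank K U ≤
        Fintype.card n + symbolicDim B A U := by
      intro U
      rw [symbolicRank_eq, symbolicDim_eq]
      exact W981.Den.sdim_upper B A U
    have h2 : ∃ U : Submodule K (n → K), finrank K U ≤ κ ∧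
        symbolicRank (affineMatrix B A) + finrank K U =
          Fintype.card n + symbolicDim B A U := by
      obtain ⟨U, hU, h⟩ := W981.Des.sym_exists hB hS (dense_iff hA)
      refine ⟨U, hU, ?_⟩
      rw [symbolicRank_eq, symbolicDim_eq]
      exact h
    refine ⟨h1, h2, ?_⟩
    have h3 : (affineMatrix B A).det = 0 ↔
        symbolicRank (affineMatrix B A) < Fintype.card n := by
      rw [symbolicRank, ← W981.Hyp.det_eq_zero_iff_rank]
      have h4 : ((affineMatrix B A).map
          (algebraMap (MvPolynomial σ K) (FractionRing (MvPolynomial σ K)))).det =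
          algebraMap _ _ (affineMatrix B A).det := (RingHom.map_det _ _).symm
      rw [h4, FaithfulSMul.algebraMap_eq_zero_iff]
    rw [h3]
    constructor
    · intro h
      obtain ⟨U, hU, h5⟩ := h2
      exact ⟨U, hU, by omega⟩
    · rintro ⟨U, -, hU⟩
      have h5 := h1 U
      omega
  · intro n β σ _ _ _ B A d r hB hS hdB hdA hN
    classical
    have hBs : ∀ s : β → ℕ, (valueAt B s)ᵀ = valueAt B s := fun s => by
      rw [valueAt, ← transpose_map, hB]
    have hSs : ∀ (s : β → ℕ) k, (valueAt (A k) s)ᵀ = valueAt (A k) s := fun s k => by
      rw [valueAt, ← transpose_map, hS]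
    have h0 : symbolicRank (mixedMatrix B A) ≤ r ↔
        ∀ s : β → ℕ, ∑ l, s l ≤ (r + 1) * (d + 1) →
          symbolicRank (affineMatrix (valueAt B s) fun k => valueAt (A k) s) ≤ r := by
      constructor
      · intro hr s _
        rw [symbolicRank_eq]
        exact (W981.Aff.rank_spec_le B A _).trans hr
      · intro h
        by_contra hr
        obtain ⟨s, hs1, hs2⟩ := W981.Aff.exists_spec (r := r + 1) B A hdB hdA (not_le.1 hr)
        have h1 := h s hs1
        rw [symbolicRank_eq] at h1
        have h7 : r + 1 ≤ (W981.Aff.gaf (valueAt B s) fun k => valueAt (A k) s).rank := hs2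
        omega
    refine ⟨h0, h0.trans ?_⟩
    constructor
    · intro h s hs
      have h1 := h s hs
      rw [symbolicRank_eq] at h1
      exact exists_certificate (hBs s) (hSs s) (hN s hs) h1
    · intro h s hs
      rw [symbolicRank_eq]
      exact rank_le_of_certificate _ _ (h s hs)

end Pool.Agent.Results.MP_08e617_lc.DenseSymmetric
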