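import Mathlib
import Pool.Agent.W936.VN.Mat5

/-!
# Singularity of polynomial matrices built by direct sums, rank-one updates and bordering

We give a deterministic singularity test with polynomially many evaluations for the polynomial
matrices whose graph (the graph of the nonzero entries `M i j`, `i ≠ j`) is a forest, with arbitrary
sparse polynomials as entries, where every variable occurs in a bounded number of entries. More
generally, the test applies to all matrices with a description by direct sums, rank-one updates,
scaling of the vectors and bordering (`Build`); every matrix whose graph is a forest has such a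
description by its entries.

The test finds a substitution of integers of polynomial length at which all the given nonsingular
matrices stay nonsingular (`Run`): it moves the origin of the explicit sets of points
`σ_i p_i^u + ∑_l y_l ∏_{k ≠ i} (z_l - k)` through the minors `det mat` and `bilin` of the matrices
from which the given ones are built.

The proof: the pair `(det mat, bilin)` of a matrix is computed from the pairs of its parts by
bilinear gates; these are networks of vectors of two polynomials (`Pool.Agent.W936.VN`), where the
gates which are singular can be removed, as every pencil of singular `2 × 2` matrices has a common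
kernel or a common image.
-/

set_option autoImplicit false

namespace Pool.Agent.Results.MP_08e617_lc.ForestMatrices

open MvPolynomial

open Pool.Agent.Results.MP_e2be99_lc.FormulasOverSparse (Run points points_card exists_run)

open Pool.Agent.W936.VN Pool.Agent.W936.RO Pool.Agent.W936.WB Pool.Agent.W936.XN

theorem occ_sum {n N : ℕ} (M : Matrix (Fin (N + 1)) (Fin (N + 1)) (MvPolynomial (Fin n) ℂ))
    (x : Fin n) : ∑ i, ∑ j, occ1 (M i j) x =
      (Finset.univ.filter fun p : Fin (N + 1) × Fin (N + 1) => x ∈ (M p.1 p.2).vars).card := by
  classical
  rw [Finset.card_filter, Fintype.sum_prod_type]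
  exact Finset.sum_congr rfl fun i _ => Finset.sum_congr rfl fun j _ => rfl

/-- Let `w, D` be fixed. There are `k, m` such that the following holds for every list `l` of
descriptions of matrices in `n` variables by polynomials of depth at most `D` (for `D = 0`,
polynomials with at most `s` monomials), where every variable occurs in at most `w` polynomials of
each description, and for every `d` that is at least `n` plus the sum of the degrees of the
polynomials in the list `L` of the tests. Let `N = (s + 3)^k`. The search `Run` over the explicit
sets `points n m N d` of at most `(Nd+1) ((d+1)(nd+1))^m` points and the list `L` always ends, in an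
integer point `σ` of polynomial length, at which all the nonsingular matrices of the list are
nonsingular. A description has at most four times as many tests as operations, and their degrees
are at most the sum of the degrees of the polynomials of the description. Every matrix whose graph
is a forest has a description by its entries, in which every entry is used at most once. -/
theorem result :
    (∀ w D : ℕ, ∃ k m : ℕ, ∀ (n d s : ℕ) (l : List (Build n)),
      (∀ T ∈ l, T.Entries (Prg w s D) ∧ ∀ x, T.reads x ≤ w) →
      n + ((l.flatMap Build.tests).map totalDegree).sum ≤ d →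
      (∀ σ, (points n m ((s + 3) ^ k) d σ).card ≤
        ((s + 3) ^ k * d + 1) * ((d + 1) * (n * d + 1)) ^ m) ∧
      (∃ σ K, Run (points n m ((s + 3) ^ k) d) (l.flatMap Build.tests) σ K) ∧
      ∀ σ K, Run (points n m ((s + 3) ^ k) d) (l.flatMap Build.tests) σ K →
        (∀ i, |σ i| ≤ (((2 ^ (n * (s + 3) ^ k * d) + m * d * (n * d + n) ^ (n - 1)) ^
          (l.flatMap Build.tests).length : ℕ) : ℤ)) ∧
        ∀ T ∈ l, T.mat.det ≠ 0 ↔ (T.mat.map (eval fun i => (σ i : ℂ))).det ≠ 0) ∧
    (∀ (n : ℕ) (T : Build n), T.tests.length ≤ 4 * T.size ∧
      ∀ g ∈ T.tests, g.totalDegree ≤ T.degree) ∧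
    (∀ (n N : ℕ) (M : Matrix (Fin (N + 1)) (Fin (N + 1)) (MvPolynomial (Fin n) ℂ)),
      (SimpleGraph.fromRel fun i j => M i j ≠ 0).IsAcyclic →
      ∃ (T : Build n) (e : Fin (N + 1) ≃ T.Idx), (∀ i j, M i j = T.mat (e i) (e j)) ∧
        T.Entries (fun g => ∃ i j, g = M i j) ∧
        (∀ x, T.reads x ≤ (Finset.univ.filter fun p : Fin (N + 1) × Fin (N + 1) =>
          x ∈ (M p.1 p.2).vars).card) ∧
        T.size ≤ 3 * (N + 1) ∧ T.degree ≤ ∑ i, ∑ j, (M i j).totalDegree) := by
  refine ⟨?_, fun n T => tests_bound T, fun n N M hM => ?_⟩
  swap
  · obtain ⟨T, e, h1, h2, h3, h4, h5⟩ := forest_build M hM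
    exact ⟨T, e, h1, h2, fun x => (h3 x).trans (le_of_eq ((occ_sum M x).trans (by congr!))),
      h4, h5⟩
  intro w D
  obtain ⟨k, m, h₀⟩ := atom_hit w D
  refine ⟨k, m, fun n d s l hl hD => ⟨fun σ => points_card _ _ d σ, exists_run _ _,
    fun σ K hrun => ⟨fun i => hrun.bound i, fun T hT => ?_⟩⟩⟩
  have hadm := adm_builds (w := w) (s := s) (D := D) (N := (s + 3) ^ k) (M := m)
      (fun σ hσ g hg => Atoms.hit hg ((rVan _).prime _ _) fun g hg hc =>
        h₀ n s _ le_rfl σ hσ g hg hc) l hl
  have hev : ∀ M : Matrix T.Idx T.Idx (MvPolynomial (Fin n) ℂ),
      eval (fun i => (σ i : ℂ)) M.det = (M.map (eval fun i => (σ i : ℂ))).det :=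
    fun M => RingHom.map_det _ _
  constructor
  · intro h0
    rw [← hev]
    exact hrun.keep.1 _ (run_keep hadm hD hrun _
      (List.mem_flatMap.2 ⟨T, hT, (tests_self T).1⟩) h0)
  · intro h0 h1
    rw [← hev, h1, map_zero] at h0
    exact h0 rfl

end Pool.Agent.Results.MP_08e617_lc.ForestMatrices
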