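import Mathlib
import Pool.Agent.W943.Pm.P3

/-!
# Singularity of polynomial matrices of small width in hidden coordinates

Consider the polynomial matrices `M(x) = ∑_t A_t(φ(x))`, where `φ_1, …, φ_m` are unknown linearly
independent linear forms, or coordinates of an unknown polynomial automorphism, or more generally
polynomials whose Jacobian matrix has a polynomial right inverse, and the matrices `A_t` have
entries of arbitrary degree, which are univariate polynomials (paths) or polynomials in separate
sets of at most `b` variables (trees). The ranks of the matrices `A_t` are arbitrary; the sums of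
the column spaces (and of the row spaces) on the two sides of each cut of the path or of the tree
have an intersection of dimension at most `w`. Explicit sets of integer points, of polynomial size
for paths and of quasipolynomial size for trees, decide whether such a matrix is singular, and the
rank over the rational functions is attained at one of the points.
-/

set_option autoImplicit false

namespace Pool.Agent.Results.MP_08e617_lc.HiddenWidth

open MvPolynomial Pool.Agent.W943.Cut Pool.Agent.W943.Tw Pool.Agent.W943.Pm

/-- There is a function `s` such that the explicit sets `points n (s k w) D` and, whenever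
`3b ≤ 2(k+1)` and `2^d n ≤ k 3^d`, the explicit sets `points n (k + (C(2w,w) - 1) d) D` have the
following properties. (1), (2) The set `points n s D` has at most `((D+1)(nD+1))^s` points, of
polynomial bit length. (3), (5) If the complex polynomial matrix `M` is `PathHidden k w`
(`TreeHidden b w`), `δ` bounds the degrees of its entries and `min N N' δ ≤ D`, then the rank of `M`
over the rational functions (the largest rank of a value) is attained at a point of the set.
(4), (6) If the square rational polynomial matrix `M` is `PathHidden k w` (`TreeHidden b w`) over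
the complex numbers and `det M` has degree at most `D`, then `M` is nonsingular if and only if
`M(p)` is nonsingular for a point `p` of the set. (7) If the `A_t` have supports in `I_t × J_t` such
that at most `w` rows and at most `w` columns occur on both sides of a cut, then the cut has
dimension at most `w`. (8) Linearly independent affine forms can be taken as coordinates `φ`. -/
theorem result : ∃ s : ℕ → ℕ → ℕ,
    (∀ n s D : ℕ, (points n s D).card ≤ ((D + 1) * (n * D + 1)) ^ s) ∧
    (∀ n s D : ℕ, ∀ p ∈ points n s D, ∀ i, |p i| ≤ ((s * D * (n * D + n) ^ (n - 1) : ℕ) : ℤ)) ∧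
    (∀ (N N' n k w δ D : ℕ) (M : Matrix (Fin N) (Fin N') (MvPolynomial (Fin n) ℂ)),
      PathHidden k w M → (∀ i j, (M i j).totalDegree ≤ δ) → min N N' * δ ≤ D →
      ∀ q : Fin n → ℂ, ∃ p ∈ points n (s k w) D,
        (M.map (eval q)).rank ≤ (M.map (eval (fun i => (p i : ℂ)))).rank) ∧
    (∀ (N n k w D : ℕ) (M : Matrix (Fin N) (Fin N) (MvPolynomial (Fin n) ℚ)),
      PathHidden k w (M.map (map (algebraMap ℚ ℂ))) → M.det.totalDegree ≤ D →
      (M.det ≠ 0 ↔ ∃ p ∈ points n (s k w) D, (M.map (eval (fun i => (p i : ℚ)))).det ≠ 0)) ∧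
    (∀ (N N' n b w k d δ D : ℕ) (M : Matrix (Fin N) (Fin N') (MvPolynomial (Fin n) ℂ)),
      3 * b ≤ 2 * (k + 1) → 2 ^ d * n ≤ k * 3 ^ d →
      TreeHidden b w M → (∀ i j, (M i j).totalDegree ≤ δ) → min N N' * δ ≤ D →
      ∀ q : Fin n → ℂ, ∃ p ∈ points n (k + (w.centralBinom - 1) * d) D,
        (M.map (eval q)).rank ≤ (M.map (eval (fun i => (p i : ℂ)))).rank) ∧
    (∀ (N n b w k d D : ℕ) (M : Matrix (Fin N) (Fin N) (MvPolynomial (Fin n) ℚ)),
      3 * b ≤ 2 * (k + 1) → 2 ^ d * n ≤ k * 3 ^ d →
      TreeHidden b w (M.map (map (algebraMap ℚ ℂ))) → M.det.totalDegree ≤ D →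
      (M.det ≠ 0 ↔ ∃ p ∈ points n (k + (w.centralBinom - 1) * d) D,
        (M.map (eval (fun i => (p i : ℚ)))).det ≠ 0)) ∧
    (∀ (N N' R m w : ℕ) (A : Fin R → Matrix (Fin N) (Fin N') (MvPolynomial (Fin m) ℂ))
      (I : Fin R → Finset (Fin N)) (J : Fin R → Finset (Fin N')) (T : Finset (Fin R)),
      (∀ s i j, A s i j ≠ 0 → i ∈ I s ∧ j ∈ J s) → (T.biUnion I ∩ Tᶜ.biUnion I).card ≤ w →
      (T.biUnion J ∩ Tᶜ.biUnion J).card ≤ w → Pool.Agent.W943.Pm.CutLE w A T) ∧
    (∀ (n m : ℕ) (A : Fin m → Fin n → ℂ) (b : Fin m → ℂ), LinearIndependent ℂ A →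
      Submersive (fun k => ∑ l, C (A k l) * X l + C (b k) : Fin m → MvPolynomial (Fin n) ℂ)) :=
  ⟨fun k w => Pool.Agent.W943.Nis.sd ℂ w k,
    fun n s D => Pool.Agent.H530R2.hitSet_card n s D,
    fun n s D p hp i => Pool.Agent.H530R2.hitSet_bound n s D p hp i,
    fun _ _ _ _ _ _ _ _ hM hδ hD q => path_rank hM hδ hD q,
    fun _ _ _ _ _ M hM hD => det_rat M hD fun h1 h2 => path_det hM h1 h2,
    fun _ _ _ _ _ _ _ _ _ _ hb hn hM hδ hD q => tree_rank hM hb hn hδ hD q,
    fun _ _ _ _ _ _ _ M hb hn hM hD => det_rat M hD fun h1 h2 => tree_det hM hb hn h1 h2,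
    fun _ _ _ _ _ A I J T h1 h2 h3 => Pool.Agent.W943.Pm.cut_of_support A I J h1 T h2 h3,
    fun _ _ A b hA => submersive_affine A b hA⟩

end Pool.Agent.Results.MP_08e617_lc.HiddenWidth
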