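import Mathlib
import Pool.Agent.W981.Hyp.Family

/-!
# Polynomial matrices with rank one coefficients up to one arbitrary polynomial matrix

Let `D` be an integral domain of characteristic zero with field of fractions `K`, for instance
`D = ℚ[y_1, ..., y_s]`, `K = ℚ(y_1, ..., y_s)`, and let `A_k` (`k ∈ σ`) be finitely many matrices over
`D`.  We consider the polynomial matrix `M = ∑ x_k A_k` over `D[x]`; it is linear in the `x_k` and its
coefficient matrices `A_k` are arbitrary polynomial matrices in the variables `y`.

Suppose that the `K`-space spanned by the `A_k` has codimension at most `c ≥ 1` in a `K`-space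
which is spanned by matrices of rank at most one together with one arbitrary matrix.  The
noncommutative rank `min_U (n - dim U + dim ∑ A_k U)` over `K` exceeds the rank of `M` by at most
`c - 1`.  So for `c = 1` the two ranks are equal, and a square `M` is singular if and only if there
is a subspace `U` of `K^n` with `dim ∑ A_k U < dim U`.  The case `c = 1` contains all polynomial
matrices `M = (∑ λ_k x_k) B + ∑ x_k u_k v_kᵀ` with `λ_k`, `u_k`, `v_k` and the matrix `B` over `D`
arbitrary.  The skew-symmetric matrices of size three show that the criterion fails for `c = 2`.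
-/

set_option autoImplicit false

open MvPolynomial Matrix Module

namespace Pool.Agent.Results.MP_08e617_lc.HyperplaneMatrices

/-- The polynomial matrix `∑ k, x_k A_k` with entries in `D[x_k : k ∈ σ]`. -/
noncomputable def symbolicMatrix {D m n σ : Type*} [CommRing D] [Fintype σ]
    (A : σ → Matrix m n D) : Matrix m n (MvPolynomial σ D) :=
  ∑ k, (X k : MvPolynomial σ D) • (A k).map C

/-- The matrices `A_k` as matrices over the field of fractions of `D`. -/
noncomputable def overFractions {D m n σ : Type*} [CommRing D]
    (A : σ → Matrix m n D) : σ → Matrix m n (FractionRing D) :=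
  fun k => (A k).map (algebraMap D (FractionRing D))

/-- The generic rank: the rank over the field of rational functions. -/
noncomputable def genericRank {K m n σ : Type*} [Field K] [Fintype m] [Fintype n] [Fintype σ]
    (A : σ → Matrix m n K) : ℕ :=
  ((symbolicMatrix A).map
    (algebraMap (MvPolynomial σ K) (FractionRing (MvPolynomial σ K)))).rank

/-- The subspace `∑ k, A_k U` of `K^m`. -/
noncomputable def imageSpace {K m n σ : Type*} [Field K] [Fintype n]
    (A : σ → Matrix m n K) (U : Submodule K (n → K)) : Submodule K (m → K) :=
  ⨆ k, U.map (A k).mulVecLin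

/-- The span of the `A_k` is contained, with codimension at most `c`, in a space which is spanned by
matrices of rank at most one together with one arbitrary matrix `B`. -/
def NearRankOneSpace {K m n σ : Type*} [Field K] [Fintype m] [Fintype n] (A : σ → Matrix m n K)
    (c : ℕ) : Prop :=
  ∃ (R : Set (Matrix m n K)) (B : Matrix m n K),
    (∀ T ∈ R, T.rank ≤ 1) ∧ (∀ k, A k ∈ Submodule.span K (insert B R)) ∧
    finrank K (Submodule.span K (insert B R)) ≤
      finrank K (Submodule.span K (Set.range A)) + c

/-- The minimum of `n - dim U + dim ∑ A_k U` is at least the generic rank and at most the generic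
rank plus `c`. -/
def GapLE {K m n σ : Type*} [Field K] [Fintype m] [Fintype n] [Fintype σ] (A : σ → Matrix m n K)
    (c : ℕ) : Prop :=
  (∀ U : Submodule K (n → K),
    genericRank A + finrank K U ≤ Fintype.card n + finrank K (imageSpace A U)) ∧
  ∃ U : Submodule K (n → K),
    Fintype.card n + finrank K (imageSpace A U) ≤ genericRank A + finrank K U + c

/-- There is a subspace `U` with `dim ∑ A_k U < dim U`. -/
def HasShrunk {K m n σ : Type*} [Field K] [Fintype n] (A : σ → Matrix m n K) : Prop :=
  ∃ U : Submodule K (n → K), finrank K (imageSpace A U) < finrank K U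

theorem gen_eq {K m n σ : Type*} [Field K] [Fintype m]
    [Fintype n] [Fintype σ] (A : σ → Matrix m n K) : (symbolicMatrix A).map
      (algebraMap (MvPolynomial σ K) (FractionRing (MvPolynomial σ K))) = W981.Hyp.gen A :=
  (W981.Hyp.gen_eq_sym A).symm

theorem det_iff {K n σ : Type*} [Field K] [Fintype n] [DecidableEq n] [Fintype σ]
    (A : σ → Matrix n n K) : (symbolicMatrix A).det = 0 ↔ genericRank A < Fintype.card n := by
  rw [genericRank, ← W981.Hyp.det_eq_zero_iff_rank]
  have h1 : ((symbolicMatrix A).map
      (algebraMap (MvPolynomial σ K) (FractionRing (MvPolynomial σ K)))).det =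
      algebraMap _ _ (symbolicMatrix A).det := (RingHom.map_det _ _).symm
  rw [h1, FaithfulSMul.algebraMap_eq_zero_iff]

theorem gap {K m n σ : Type*} [Field K] [CharZero K] [Fintype m] [Fintype n] [Fintype σ]
    (A : σ → Matrix m n K) (c : ℕ) (hc : 1 ≤ c) (h : NearRankOneSpace A c) : GapLE A (c - 1) := by
  classical
  obtain ⟨R, B, hR, hA, hd⟩ := h
  refine ⟨fun U => ?_, ?_⟩
  · have := W981.Hyp.upper A U
    rwa [← gen_eq] at this
  · obtain ⟨U, hU⟩ := W981.Hyp.family_codim A R hR B (c - 1) hA (by
      rwa [Nat.sub_add_cancel hc])
    rw [← gen_eq] at hU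
    exact ⟨U, hU⟩

theorem near_of_form {K m n σ : Type*} [Field K] [Fintype m] [Fintype n] [Fintype σ]
    (B : Matrix m n K) (lam : σ → K) (u : σ → m → K) (v : σ → n → K) :
    NearRankOneSpace (fun k => lam k • B + vecMulVec (u k) (v k)) 1 := by
  refine ⟨Set.range fun k => vecMulVec (u k) (v k), B, ?_, fun k => ?_, ?_⟩
  · rintro _ ⟨k, rfl⟩
    exact rank_vecMulVec_le _ _
  · exact Submodule.add_mem _
      (Submodule.smul_mem _ _ (Submodule.subset_span (Set.mem_insert _ _)))
      (Submodule.subset_span (Set.mem_insert_of_mem _ ⟨k, rfl⟩))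
  · set A : σ → Matrix m n K := fun k => lam k • B + vecMulVec (u k) (v k) with hA
    have hB : B ∈ Submodule.span K (Set.range A) ⊔ Submodule.span K {B} :=
      Submodule.mem_sup_right (Submodule.mem_span_singleton_self _)
    have h1 : Submodule.span K (insert B (Set.range fun k => vecMulVec (u k) (v k))) ≤
        Submodule.span K (Set.range A) ⊔ Submodule.span K {B} := by
      refine Submodule.span_le.2 ?_
      rintro _ (rfl | ⟨k, rfl⟩)
      · exact hB
      · have h2 : A k - lam k • B ∈ Submodule.span K (Set.range A) ⊔ Submodule.span K {B} :=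
          Submodule.sub_mem _ (Submodule.mem_sup_left (Submodule.subset_span ⟨k, rfl⟩))
            (Submodule.smul_mem _ _ hB)
        simp only [hA, add_sub_cancel_left] at h2
        exact h2
    exact (Submodule.finrank_mono h1).trans
      ((Submodule.finrank_add_le_finrank_add_finrank _ _).trans
        (Nat.add_le_add_left (W981.Hyp.finrank_span_one B) _))

theorem criterion {K n σ : Type*} [Field K] [CharZero K] [Fintype n] [DecidableEq n] [Fintype σ]
    (A : σ → Matrix n n K) (h : NearRankOneSpace A 1) :
    (symbolicMatrix A).det = 0 ↔ HasShrunk A := by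
  rw [det_iff]
  have h1 := gap A 1 le_rfl h
  constructor
  · intro h2
    obtain ⟨X, hX⟩ := h1.2
    exact ⟨X, by omega⟩
  · rintro ⟨U, hU⟩
    have := h1.1 U
    omega

/-- base change to the field of fractions -/
theorem map_symbolic {D m n σ : Type*} [CommRing D] [Fintype σ] (A : σ → Matrix m n D) :
    (symbolicMatrix A).map (MvPolynomial.map (algebraMap D (FractionRing D))) =
      symbolicMatrix (overFractions A) := by
  ext1 i j
  simp only [symbolicMatrix, overFractions, Matrix.map_apply, Matrix.sum_apply, Matrix.smul_apply,
    smul_eq_mul, map_sum, map_mul, map_X, map_C]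

theorem det_base {D n σ : Type*} [CommRing D] [IsDomain D] [Fintype n] [DecidableEq n]
    [Fintype σ] (A : σ → Matrix n n D) :
    (symbolicMatrix A).det = 0 ↔ (symbolicMatrix (overFractions A)).det = 0 := by
  have h1 : (symbolicMatrix (overFractions A)).det =
      MvPolynomial.map (algebraMap D (FractionRing D)) (symbolicMatrix A).det := by
    rw [RingHom.map_det, ← map_symbolic]
    rfl
  rw [h1]
  exact (map_eq_zero_iff _
    (MvPolynomial.map_injective _ (IsFractionRing.injective D (FractionRing D)))).symm

theorem over_form {D n σ : Type*} [CommRing D] (B : Matrix n n D)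
    (lam : σ → D) (u v : σ → n → D) :
    overFractions (fun k => lam k • B + vecMulVec (u k) (v k)) =
      fun k => algebraMap D (FractionRing D) (lam k) • B.map (algebraMap D (FractionRing D)) +
        vecMulVec (fun i => algebraMap D (FractionRing D) (u k i))
          (fun i => algebraMap D (FractionRing D) (v k i)) := by
  funext k
  ext i j
  simp only [overFractions, Matrix.map_apply, Matrix.add_apply, Matrix.smul_apply, smul_eq_mul,
    vecMulVec_apply, map_add, map_mul]

theorem over_crs (D : Type*) [CommRing D] [IsDomain D] :
    ∃ A : Fin 3 → Matrix (Fin 3) (Fin 3) D,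
      overFractions A = W981.Hyp.crs (FractionRing D) := by
  classical
  have key : ∀ x : FractionRing D, x = 0 ∨ x = 1 ∨ x = -1 →
      ∃ y : D, algebraMap D (FractionRing D) y = x := by
    rintro x (rfl | rfl | rfl)
    · exact ⟨0, map_zero _⟩
    · exact ⟨1, map_one _⟩
    · exact ⟨-1, by rw [map_neg, map_one]⟩
  have h3 : ∀ k i j, W981.Hyp.crs (FractionRing D) k i j = 0 ∨
      W981.Hyp.crs (FractionRing D) k i j = 1 ∨ W981.Hyp.crs (FractionRing D) k i j = -1 := by
    intro k i j
    fin_cases k <;> fin_cases i <;> fin_cases j <;> simp [W981.Hyp.crs]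
  choose f hf using fun k i j => key _ (h3 k i j)
  refine ⟨fun k => Matrix.of fun i j => f k i j, ?_⟩
  funext k
  ext i j
  exact hf k i j

/-- **Result.**  Let `D` be an integral domain of characteristic zero, `K` its field of fractions.
(1) If the `K`-span of the matrices `A_k` over `D` has codimension at most `c ≥ 1` in a `K`-space
spanned by matrices of rank at most one and one arbitrary matrix, then the noncommutative rank over
`K` is at most the rank of `∑ x_k A_k` plus `c - 1` (and always at least this rank).  (2) For square
matrices and `c = 1`, the polynomial matrix `∑ x_k A_k` is singular if and only if there is a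
subspace `U` of `K^n` with `dim ∑ A_k U < dim U`.  (3) In particular this holds for the polynomial
matrices `(∑ λ_k x_k) B + ∑ x_k u_k v_kᵀ`, for arbitrary `B`, `λ_k`, `u_k`, `v_k` over `D`.
(4) The criterion (2) fails for `c = 2`. -/
theorem result {D : Type} [CommRing D] [IsDomain D] [CharZero D] :
    (∀ {m n σ : Type} [Fintype m] [Fintype n] [Fintype σ] (A : σ → Matrix m n D) (c : ℕ),
      1 ≤ c → NearRankOneSpace (overFractions A) c → GapLE (overFractions A) (c - 1)) ∧
    (∀ {n σ : Type} [Fintype n] [DecidableEq n] [Fintype σ] (A : σ → Matrix n n D),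
      NearRankOneSpace (overFractions A) 1 →
        ((symbolicMatrix A).det = 0 ↔ HasShrunk (overFractions A))) ∧
    (∀ {n σ : Type} [Fintype n] [DecidableEq n] [Fintype σ] (B : Matrix n n D) (lam : σ → D)
      (u v : σ → n → D),
      (symbolicMatrix fun k => lam k • B + vecMulVec (u k) (v k)).det = 0 ↔
        HasShrunk (overFractions fun k => lam k • B + vecMulVec (u k) (v k))) ∧
    ∃ A : Fin 3 → Matrix (Fin 3) (Fin 3) D,
      (symbolicMatrix A).det = 0 ∧ ¬ HasShrunk (overFractions A) ∧
        NearRankOneSpace (overFractions A) 2 := by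
  have h0 : CharZero (FractionRing D) :=
    charZero_of_injective_algebraMap (IsFractionRing.injective D (FractionRing D))
  refine ⟨fun A c hc h => gap _ c hc h, fun A h => (det_base A).trans (criterion _ h),
    fun B lam u v => (det_base _).trans (criterion _ ?_), ?_⟩
  · rw [over_form]
    exact near_of_form _ _ _ _
  · obtain ⟨A, hA⟩ := over_crs D
    refine ⟨A, (det_base A).2 ?_, ?_, ?_⟩
    · rw [hA]; exact W981.Hyp.crs_det
    · rw [hA]
      rintro ⟨U, hU⟩
      exact absurd (W981.Hyp.crs_images U) (not_le.2 hU)
    · rw [hA]
      exact ⟨W981.Hyp.rks (FractionRing D), 0, W981.Hyp.rks_rank _, W981.Hyp.rks_crs _,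
        W981.Hyp.rks_dim _⟩

end Pool.Agent.Results.MP_08e617_lc.HyperplaneMatrices
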