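import Mathlib
import Pool.Agent.W981.Hyp.Sharp

/-!
# Polynomial matrices with coefficient matrices of rank at most one up to a border

Let `D` be an integral domain (of any characteristic) with field of fractions `K`, for instance
`D = ℚ[y_1, ..., y_s]`, and let `A_k` (`k ∈ σ`) be finitely many `m × n` matrices over `D`.  We
consider the polynomial matrix `M = ∑ x_k A_k` over `D[x]`.  Let `H` be a subspace of `K^n` and `Ω` a
subspace of `K^m`, and suppose that every `A_k` has rank at most one as a map from `H` to `K^m / Ω`.
In suitable bases this says that `∑ x_k A_k` consists of a block `∑ x_k u_k v_kᵀ` and of `codim H`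
columns and `dim Ω` rows of arbitrary linear forms in the same variables `x_k`, with coefficients
which are arbitrary rational functions of the `y`.  Put `w = codim H + dim Ω` and suppose `w ≥ 1`.
The noncommutative rank `min_U (n - dim U + dim ∑ A_k U)` over `K` exceeds the rank of `M` by at most
`w - 1`.  So for `w = 1` (one arbitrary column, or one arbitrary row) a square matrix `M` is singular
if and only if there is a subspace `U` of `K^n` with `dim ∑ A_k U < dim U`.  The three skew-symmetric
matrices of size three show that this fails for `w = 2`, both for two columns and for one row and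
one column, and also if one of the matrices `A_k` is exempt from the condition.
-/

set_option autoImplicit false

open MvPolynomial Matrix Module

namespace Pool.Agent.Results.MP_08e617_lc.ZBorderedRankOne

/-- The polynomial matrix `∑ k, x_k A_k` with entries in `D[x_k : k ∈ σ]`. -/
noncomputable def symbolicMatrix {D m n σ : Type*} [CommRing D] [Fintype σ]
    (A : σ → Matrix m n D) : Matrix m n (MvPolynomial σ D) :=
  ∑ k, (X k : MvPolynomial σ D) • (A k).map C

/-- The matrices `A_k` as matrices over the field of fractions of `D`. -/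
noncomputable def overFractions {D m n σ : Type*} [CommRing D]
    (A : σ → Matrix m n D) : σ → Matrix m n (FractionRing D) :=
  fun k => (A k).map (algebraMap D (FractionRing D))

/-- The generic rank: the rank over the field of rational functions. -/
noncomputable def genericRank {K m n σ : Type*} [Field K] [Fintype m] [Fintype n] [Fintype σ]
    (A : σ → Matrix m n K) : ℕ :=
  ((symbolicMatrix A).map
    (algebraMap (MvPolynomial σ K) (FractionRing (MvPolynomial σ K)))).rank

/-- The subspace `∑ k, A_k U` of `K^m`. -/
noncomputable def imageSpace {K m n σ : Type*} [Field K] [Fintype n]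
    (A : σ → Matrix m n K) (U : Submodule K (n → K)) : Submodule K (m → K) :=
  ⨆ k, U.map (A k).mulVecLin

/-- Every `A_k` has rank at most one as a map from `H` to `K^m / Ω`. -/
def RankOneBetween {K m n σ : Type*} [Field K] [Fintype n] (A : σ → Matrix m n K)
    (H : Submodule K (n → K)) (Ω : Submodule K (m → K)) : Prop :=
  ∀ k, finrank K (H.map (A k).mulVecLin ⊔ Ω : Submodule K (m → K)) ≤ finrank K Ω + 1

/-- The `A_k` have rank at most one up to a border of total width `b`. -/
def BorderWidthLE {K m n σ : Type*} [Field K] [Fintype n] (A : σ → Matrix m n K) (b : ℕ) : Prop :=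
  ∃ (H : Submodule K (n → K)) (Ω : Submodule K (m → K)),
    Fintype.card n + finrank K Ω ≤ finrank K H + b ∧ RankOneBetween A H Ω

/-- The minimum of `n - dim U + dim ∑ A_k U` is at least the generic rank and at most the generic
rank plus `c`. -/
def GapLE {K m n σ : Type*} [Field K] [Fintype m] [Fintype n] [Fintype σ] (A : σ → Matrix m n K)
    (c : ℕ) : Prop :=
  (∀ U : Submodule K (n → K),
    genericRank A + finrank K U ≤ Fintype.card n + finrank K (imageSpace A U)) ∧
  ∃ U : Submodule K (n → K),
    Fintype.card n + finrank K (imageSpace A U) ≤ genericRank A + finrank K U + c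

/-- There is a subspace `U` with `dim ∑ A_k U < dim U`. -/
def HasShrunk {K m n σ : Type*} [Field K] [Fintype n] (A : σ → Matrix m n K) : Prop :=
  ∃ U : Submodule K (n → K), finrank K (imageSpace A U) < finrank K U

theorem gen_eq {K m n σ : Type*} [Field K] [Fintype m]
    [Fintype n] [Fintype σ] [DecidableEq σ] (A : σ → Matrix m n K) : (symbolicMatrix A).map
      (algebraMap (MvPolynomial σ K) (FractionRing (MvPolynomial σ K))) = W981.Hyp.gen A := by
  ext i j
  simp only [symbolicMatrix, W981.Hyp.gen, Matrix.map_apply, Matrix.sum_apply, Matrix.smul_apply,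
    map_sum, smul_eq_mul, map_mul, W981.Hyp.algebraMap_C, W981.Hyp.tt]

theorem det_iff {K n σ : Type*} [Field K] [Fintype n] [DecidableEq n] [Fintype σ]
    (A : σ → Matrix n n K) : (symbolicMatrix A).det = 0 ↔ genericRank A < Fintype.card n := by
  rw [genericRank, ← W981.Hyp.det_eq_zero_iff_rank]
  have h1 : ((symbolicMatrix A).map
      (algebraMap (MvPolynomial σ K) (FractionRing (MvPolynomial σ K)))).det =
      algebraMap _ _ (symbolicMatrix A).det := (RingHom.map_det _ _).symm
  rw [h1, FaithfulSMul.algebraMap_eq_zero_iff]

theorem gap {K m n σ : Type*} [Field K] [Fintype m] [Fintype n] [Fintype σ]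
    (A : σ → Matrix m n K) (b : ℕ) (hb : 1 ≤ b) (h : BorderWidthLE A b) : GapLE A (b - 1) := by
  classical
  obtain ⟨H, Ω, hH, h1⟩ := h
  refine ⟨fun U => ?_, ?_⟩
  · have := W981.Hyp.upper A U
    rwa [← gen_eq] at this
  · obtain ⟨X, hX⟩ := W981.Hyp.border A H Ω b hb hH h1
    rw [← gen_eq] at hX
    refine ⟨X, ?_⟩
    have h2 : (imageSpace A X) = W981.Hyp.im A X := rfl
    rw [h2]
    change _ ≤ genericRank A + _ + _ at hX
    omega

theorem criterion {K n σ : Type*} [Field K] [Fintype n] [DecidableEq n] [Fintype σ]
    (A : σ → Matrix n n K) (h : BorderWidthLE A 1) :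
    (symbolicMatrix A).det = 0 ↔ HasShrunk A := by
  rw [det_iff]
  have h1 := gap A 1 le_rfl h
  constructor
  · intro h2
    obtain ⟨X, hX⟩ := h1.2
    exact ⟨X, by omega⟩
  · rintro ⟨U, hU⟩
    have := h1.1 U
    omega

/-- base change to the field of fractions -/
theorem map_symbolic {D m n σ : Type*} [CommRing D] [Fintype σ] (A : σ → Matrix m n D) :
    (symbolicMatrix A).map (MvPolynomial.map (algebraMap D (FractionRing D))) =
      symbolicMatrix (overFractions A) := by
  ext1 i j
  simp only [symbolicMatrix, overFractions, Matrix.map_apply, Matrix.sum_apply, Matrix.smul_apply,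
    smul_eq_mul, map_sum, map_mul, map_X, map_C]

theorem det_base {D n σ : Type*} [CommRing D] [IsDomain D] [Fintype n] [DecidableEq n]
    [Fintype σ] (A : σ → Matrix n n D) :
    (symbolicMatrix A).det = 0 ↔ (symbolicMatrix (overFractions A)).det = 0 := by
  have h1 : (symbolicMatrix (overFractions A)).det =
      MvPolynomial.map (algebraMap D (FractionRing D)) (symbolicMatrix A).det := by
    rw [RingHom.map_det, ← map_symbolic]
    rfl
  rw [h1]
  exact (map_eq_zero_iff _
    (MvPolynomial.map_injective _ (IsFractionRing.injective D (FractionRing D)))).symm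

theorem over_crs (D : Type*) [CommRing D] [IsDomain D] :
    ∃ A : Fin 3 → Matrix (Fin 3) (Fin 3) D,
      overFractions A = W981.Hyp.crs (FractionRing D) := by
  classical
  have key : ∀ x : FractionRing D, x = 0 ∨ x = 1 ∨ x = -1 →
      ∃ y : D, algebraMap D (FractionRing D) y = x := by
    rintro x (rfl | rfl | rfl)
    · exact ⟨0, map_zero _⟩
    · exact ⟨1, map_one _⟩
    · exact ⟨-1, by rw [map_neg, map_one]⟩
  have h3 : ∀ k i j, W981.Hyp.crs (FractionRing D) k i j = 0 ∨
      W981.Hyp.crs (FractionRing D) k i j = 1 ∨ W981.Hyp.crs (FractionRing D) k i j = -1 := by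
    intro k i j
    fin_cases k <;> fin_cases i <;> fin_cases j <;> simp [W981.Hyp.crs]
  choose f hf using fun k i j => key _ (h3 k i j)
  refine ⟨fun k => Matrix.of fun i j => f k i j, ?_⟩
  funext k
  ext i j
  exact hf k i j

/-- **Result.**  Let `D` be an integral domain, `K` its field of fractions, `A_k` matrices over `D`.
(1) For a border of total width `b ≥ 1` over `K` the noncommutative rank over `K` is at most the rank
of `∑ x_k A_k` plus `b - 1` (and always at least this rank).  (2) For square matrices and a border of
width one, the polynomial matrix `∑ x_k A_k` is singular if and only if there is a subspace `U` of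
`K^n` with `dim ∑ A_k U < dim U`.  (3) Over every domain the criterion fails for a border of width
two, of both shapes, and if one matrix is exempt from the condition. -/
theorem result {D : Type} [CommRing D] [IsDomain D] :
    (∀ {m n σ : Type} [Fintype m] [Fintype n] [Fintype σ] (A : σ → Matrix m n D) (b : ℕ),
      1 ≤ b → BorderWidthLE (overFractions A) b → GapLE (overFractions A) (b - 1)) ∧
    (∀ {n σ : Type} [Fintype n] [DecidableEq n] [Fintype σ] (A : σ → Matrix n n D),
      BorderWidthLE (overFractions A) 1 →
        ((symbolicMatrix A).det = 0 ↔ HasShrunk (overFractions A))) ∧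
    ∃ A : Fin 3 → Matrix (Fin 3) (Fin 3) D,
      (symbolicMatrix A).det = 0 ∧ ¬ HasShrunk (overFractions A) ∧
      (∃ H : Submodule (FractionRing D) (Fin 3 → FractionRing D),
        finrank (FractionRing D) H = 1 ∧ RankOneBetween (overFractions A) H ⊥) ∧
      (∃ H Ω : Submodule (FractionRing D) (Fin 3 → FractionRing D),
        finrank (FractionRing D) H = 2 ∧ finrank (FractionRing D) Ω = 1 ∧
        RankOneBetween (overFractions A) H Ω) ∧
      ∃ H : Submodule (FractionRing D) (Fin 3 → FractionRing D),
        finrank (FractionRing D) H = 2 ∧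
        ∀ k, k ≠ 0 →
          finrank (FractionRing D) (H.map (overFractions A k).mulVecLin) ≤ 1 := by
  classical
  refine ⟨fun A b hb h => gap _ b hb h, fun A h => (det_base A).trans (criterion _ h), ?_⟩
  obtain ⟨A, hA⟩ := over_crs D
  refine ⟨A, (det_base A).2 ?_, ?_, ?_, ?_, ?_⟩
  · rw [hA]; exact W981.Hyp.crs_det
  · rw [hA]
    rintro ⟨U, hU⟩
    exact absurd (W981.Hyp.crs_images U) (not_le.2 hU)
  · rw [hA]
    refine ⟨Submodule.span _ {W981.Hyp.ee _ 0}, W981.Hyp.finrank_line 0, fun k => ?_⟩
    rw [sup_bot_eq, finrank_bot, zero_add]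
    have := Submodule.finrank_map_le (W981.Hyp.crs (FractionRing D) k).mulVecLin
      (Submodule.span _ {W981.Hyp.ee _ 0})
    rwa [W981.Hyp.finrank_line] at this
  · rw [hA]
    refine ⟨W981.Hyp.perp (Submodule.span _ {W981.Hyp.ee _ 0}),
      Submodule.span _ {W981.Hyp.ee _ 1}, W981.Hyp.finrank_plane, W981.Hyp.finrank_line 1,
      fun k => ?_⟩
    rw [W981.Hyp.finrank_line]
    exact W981.Hyp.plane_sup k
  · rw [hA]
    refine ⟨W981.Hyp.perp (Submodule.span _ {W981.Hyp.ee _ 0}), W981.Hyp.finrank_plane,
      fun k hk => ?_⟩
    fin_cases k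
    · exact absurd rfl hk
    · refine (Submodule.finrank_mono W981.Hyp.plane1).trans ?_
      rw [W981.Hyp.finrank_line]
    · refine (Submodule.finrank_mono W981.Hyp.plane2).trans ?_
      rw [W981.Hyp.finrank_line]

end Pool.Agent.Results.MP_08e617_lc.ZBorderedRankOne
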