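import Mathlib
import Pool.Agent.W981.Hyp.Family
import Pool.Agent.W158.NCR.Main

/-!
# Rank and noncommutative rank of linear matrices with coefficients of bounded rank

Let `A_i` (`i ∈ σ`) be `m × n` matrices over an infinite field `K` and suppose that the space which
they span is spanned by its matrices of rank at most `k` and by `k + 1` further matrices; for
instance all but at most `k + 1` of the `A_i` have rank at most `k`.  The noncommutative rank
`min_U (n - dim U + dim ∑ A_i U)` is always at least the rank of `∑ x_i A_i` over `K(x)`, and it is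
less than twice this rank.  We show that it is at most `(2^k - 1) / 2^(k-1) = 2 - 2^(1-k)` times this
rank.  For `k = 1` this is the theorem of Edmonds and Rado (rank one matrices) with two arbitrary
matrices added, and for `k = 2` the constant `3/2` is optimal.
-/

set_option autoImplicit false

open MvPolynomial Matrix Module

namespace Pool.Agent.Results.MP_08e617_lc.ZBoundedRankCoefficients

open Pool.Agent.W158.NCR

/-- The symbolic matrix `∑ i, x_i A_i` with entries in `K[x_i : i ∈ σ]`. -/
noncomputable def symbolicMatrix {K m n σ : Type*} [Field K] [Fintype σ]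
    (A : σ → Matrix m n K) : Matrix m n (MvPolynomial σ K) :=
  ∑ i, (X i : MvPolynomial σ K) • (A i).map C

/-- The generic rank: the rank of `∑ i, x_i A_i` over the field of rational functions. -/
noncomputable def genericRank {K m n σ : Type*} [Field K] [Fintype m] [Fintype n] [Fintype σ]
    (A : σ → Matrix m n K) : ℕ :=
  ((symbolicMatrix A).map
    (algebraMap (MvPolynomial σ K) (FractionRing (MvPolynomial σ K)))).rank

/-- The subspace `∑ i, A_i U` of `K^m`. -/
noncomputable def imageSpace {K m n σ : Type*} [Field K] [Fintype n]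
    (A : σ → Matrix m n K) (U : Submodule K (n → K)) : Submodule K (m → K) :=
  ⨆ i, U.map (A i).mulVecLin

/-- The noncommutative rank: the minimum of `n - dim U + dim ∑ i, A_i U` over all subspaces `U` of
`K^n`. -/
noncomputable def noncommutativeRank {K m n σ : Type*} [Field K] [Fintype n]
    (A : σ → Matrix m n K) : ℕ :=
  ⨅ U : Submodule K (n → K), (Fintype.card n - finrank K U + finrank K (imageSpace A U))

/-- The span of the `A_i` is spanned by its elements of rank at most `k` and by `k + 1` further
matrices. -/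
def SpannedUpTo {K m n σ : Type*} [Field K] [Fintype n] (A : σ → Matrix m n K) (k : ℕ) : Prop :=
  ∃ D : Fin (k + 1) → Matrix m n K, (∀ j, D j ∈ Submodule.span K (Set.range A)) ∧
    ∀ i, A i ∈ Submodule.span K
      (Set.range D ∪ {B | B ∈ Submodule.span K (Set.range A) ∧ B.rank ≤ k})

/-- There is a subspace `U` with `dim ∑ i, A_i U < dim U`. -/
def HasShrunk {K m n σ : Type*} [Field K] [Fintype n] (A : σ → Matrix m n K) : Prop :=
  ∃ U : Submodule K (n → K), finrank K (imageSpace A U) < finrank K U

theorem gen_eq {K m n σ : Type*} [Field K] [Fintype m]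
    [Fintype n] [Fintype σ] [DecidableEq σ] (A : σ → Matrix m n K) : (symbolicMatrix A).map
      (algebraMap (MvPolynomial σ K) (FractionRing (MvPolynomial σ K))) = W981.Hyp.gen A := by
  ext i j
  simp only [symbolicMatrix, W981.Hyp.gen, Matrix.map_apply, Matrix.sum_apply, Matrix.smul_apply,
    map_sum, smul_eq_mul, map_mul, W981.Hyp.algebraMap_C, W981.Hyp.tt]

theorem det_iff {K n σ : Type*} [Field K] [Fintype n] [DecidableEq n] [Fintype σ]
    (A : σ → Matrix n n K) : (symbolicMatrix A).det = 0 ↔ genericRank A < Fintype.card n := by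
  rw [genericRank, ← W981.Hyp.det_eq_zero_iff_rank]
  have h1 : ((symbolicMatrix A).map
      (algebraMap (MvPolynomial σ K) (FractionRing (MvPolynomial σ K)))).det =
      algebraMap _ _ (symbolicMatrix A).det := (RingHom.map_det _ _).symm
  rw [h1, FaithfulSMul.algebraMap_eq_zero_iff]

theorem upper {K m n σ : Type*} [Field K] [Fintype m] [Fintype n] [Fintype σ]
    (A : σ → Matrix m n K) (U : Submodule K (n → K)) :
    genericRank A + finrank K U ≤ Fintype.card n + finrank K (imageSpace A U) := by
  classical
  have := W981.Hyp.upper A U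
  rwa [← gen_eq] at this

theorem finrank_le_card {K n : Type*} [Field K] [Fintype n] (U : Submodule K (n → K)) :
    finrank K U ≤ Fintype.card n := by
  have := Submodule.finrank_le U
  rwa [finrank_fintype_fun_eq_card] at this

theorem le_ncRank {K m n σ : Type*} [Field K] [Fintype m] [Fintype n] [Fintype σ]
    (A : σ → Matrix m n K) : genericRank A ≤ noncommutativeRank A := by
  refine le_ciInf fun U => ?_
  have h1 := upper A U
  have h2 := finrank_le_card U
  omega

theorem ncRank_le {K m n σ : Type*} [Field K] [Fintype n]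
    (A : σ → Matrix m n K) (U : Submodule K (n → K)) :
    noncommutativeRank A + finrank K U ≤ Fintype.card n + finrank K (imageSpace A U) := by
  have h1 : noncommutativeRank A ≤
      Fintype.card n - finrank K U + finrank K (imageSpace A U) := ciInf_le (OrderBot.bddBelow _) U
  have h2 := finrank_le_card U
  omega

theorem exists_ncRank {K m n σ : Type*} [Field K] [Fintype n] (A : σ → Matrix m n K) :
    ∃ U : Submodule K (n → K),
      noncommutativeRank A + finrank K U = Fintype.card n + finrank K (imageSpace A U) := by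
  obtain ⟨U, hU⟩ := Nat.sInf_mem (s := Set.range fun U : Submodule K (n → K) =>
    (Fintype.card n - finrank K U + finrank K (imageSpace A U))) (Set.range_nonempty _)
  refine ⟨U, ?_⟩
  have h1 : noncommutativeRank A =
      Fintype.card n - finrank K U + finrank K (imageSpace A U) := hU.symm
  have h2 := finrank_le_card U
  omega

/-- in terms of a subspace -/
theorem main_matrix {K m n σ : Type*} [Field K] [Infinite K] [Fintype m] [Fintype n] [Fintype σ]
    (A : σ → Matrix m n K) (j : ℕ) (h : SpannedUpTo A (j + 1)) :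
    2 ^ j * noncommutativeRank A ≤ (2 ^ (j + 1) - 1) * genericRank A := by
  classical
  obtain ⟨D, hD, hA⟩ := h
  let φ : Matrix m n K →ₗ[K] ((n → K) →ₗ[K] (m → K)) := (Matrix.toLin' (R := K)).toLinearMap
  have hφ : ∀ B : Matrix m n K, φ B = B.mulVecLin := fun B => Matrix.toLin'_apply' B
  set 𝒮 := Submodule.span K (Set.range A) with h𝒮
  have hrk : ∀ B : Matrix m n K, rk ⊤ ⊥ (φ B) = B.rank := by
    intro B
    rw [rk, sup_bot_eq, hφ, Submodule.map_top]
    rfl
  have hyp : Hyp (𝒮.map φ) ⊤ ⊥ (j + 2) (j + 1) := by
    refine ⟨(Submodule.span K (Set.range D)).map φ, Submodule.map_mono (Submodule.span_le.2 ?_),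
      ?_, ?_⟩
    · rintro _ ⟨i, rfl⟩
      exact hD i
    · refine (Submodule.finrank_map_le _ _).trans ?_
      refine (finrank_range_le_card (R := K) D).trans ?_
      rw [Fintype.card_fin]
    · have h1 : 𝒮 ≤ Submodule.span K (Set.range D) ⊔
          Submodule.span K {B | B ∈ 𝒮 ∧ B.rank ≤ j + 1} := by
        rw [← Submodule.span_union]
        refine Submodule.span_le.2 ?_
        rintro _ ⟨i, rfl⟩
        exact hA i
      refine (Submodule.map_mono h1).trans ?_
      rw [Submodule.map_sup]
      refine sup_le le_sup_left (le_trans ?_ le_sup_right)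
      rw [Submodule.map_span]
      refine Submodule.span_mono ?_
      rintro _ ⟨B, hB, rfl⟩
      refine ⟨Submodule.mem_map_of_mem hB.1, ?_⟩
      rw [hrk, finrank_bot, zero_add]
      exact hB.2
  obtain ⟨f, hf, U, -, hU⟩ := main (𝒮.map φ) j ⊤ ⊥ hyp
  obtain ⟨B, hB, rfl⟩ := Submodule.mem_map.1 hf
  have h1 : img (𝒮.map φ) U = imageSpace A U := by
    have h2 : imageSpace A U = W981.Hyp.im A U := rfl
    rw [h2, ← W981.Hyp.imS_eq]
    apply le_antisymm
    · rw [img_le]
      intro f hf u hu
      obtain ⟨B, hB, rfl⟩ := Submodule.mem_map.1 hf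
      exact Submodule.subset_span ⟨B, hB, u, hu, by rw [hφ]; rfl⟩
    · refine Submodule.span_le.2 ?_
      rintro _ ⟨B, hB, u, hu, rfl⟩
      have h3 : φ B u ∈ img (𝒮.map φ) U := apply_mem_img (Submodule.mem_map_of_mem hB) hu
      rwa [hφ] at h3
  have h2 : B.rank ≤ genericRank A := by
    have := W981.Hyp.rank_le_gen_of_mem A hB
    rwa [← gen_eq] at this
  rw [h1, sup_bot_eq, finrank_bot, finrank_top, finrank_fintype_fun_eq_card, hrk] at hU
  have h3 := ncRank_le A U
  have h4 : 2 ^ j * (noncommutativeRank A + finrank K U) ≤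
      2 ^ j * (Fintype.card n + finrank K (imageSpace A U)) := Nat.mul_le_mul_left _ h3
  have h5 : (2 ^ (j + 1) - 1) * B.rank ≤ (2 ^ (j + 1) - 1) * genericRank A :=
    Nat.mul_le_mul_left _ h2
  rw [Nat.mul_add] at h4
  simp only [mul_zero, add_zero] at hU
  omega

theorem ratio {K m n σ : Type*} [Field K] [Infinite K] [Fintype m] [Fintype n] [Fintype σ]
    (A : σ → Matrix m n K) {k : ℕ} (hk : 1 ≤ k) (h : SpannedUpTo A k) :
    2 ^ (k - 1) * noncommutativeRank A ≤ (2 ^ k - 1) * genericRank A := by
  obtain ⟨j, rfl⟩ : ∃ j, k = j + 1 := ⟨k - 1, by omega⟩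
  exact main_matrix A j h

/-- all but at most `k + 1` matrices have rank at most `k` -/
theorem spanned_of_finset {K m n σ : Type*} [Field K] [Fintype n]
    (A : σ → Matrix m n K) {k : ℕ} (E : Finset σ) (hE : E.card ≤ k + 1)
    (h : ∀ i, i ∉ E → (A i).rank ≤ k) : SpannedUpTo A k := by
  classical
  let e := E.equivFin
  refine ⟨fun j => if hj : (j : ℕ) < E.card then A (e.symm ⟨j, hj⟩) else 0, fun j => ?_, fun i => ?_⟩
  · dsimp only
    split_ifs with hj
    · exact Submodule.subset_span ⟨_, rfl⟩
    · exact Submodule.zero_mem _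
  · by_cases hi : i ∈ E
    · refine Submodule.subset_span (Or.inl ⟨⟨(e ⟨i, hi⟩ : ℕ), ?_⟩, ?_⟩)
      · exact (e ⟨i, hi⟩).2.trans_le hE
      · have h1 : ((e ⟨i, hi⟩ : Fin E.card) : ℕ) < E.card := (e ⟨i, hi⟩).2
        dsimp only
        rw [dif_pos h1]
        have h2 : (⟨((e ⟨i, hi⟩ : Fin E.card) : ℕ), h1⟩ : Fin E.card) = e ⟨i, hi⟩ := rfl
        rw [h2, Equiv.symm_apply_apply]
    · exact Submodule.subset_span (Or.inr ⟨Submodule.subset_span ⟨i, rfl⟩, h i hi⟩)

theorem shrunk_iff {K n σ : Type*} [Field K] [Fintype n] (A : σ → Matrix n n K) :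
    HasShrunk A ↔ noncommutativeRank A < Fintype.card n := by
  constructor
  · rintro ⟨U, hU⟩
    have := ncRank_le A U
    omega
  · intro h
    obtain ⟨U, hU⟩ := exists_ncRank A
    exact ⟨U, by omega⟩

theorem crs_rank (K : Type*) [Field K] (i : Fin 3) : (W981.Hyp.crs K i).rank ≤ 2 := by
  have h : (W981.Hyp.crs K i).det = 0 := by
    fin_cases i <;> simp [W981.Hyp.crs, Matrix.det_fin_three]
  rw [W981.Hyp.det_eq_zero_iff_rank, Fintype.card_fin] at h
  omega

/-- **Result.**  Let `K` be an infinite field, and let the span of the `m × n` matrices `A_i` be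
spanned by its elements of rank at most `k` and by `k + 1` further matrices, where `k ≥ 1`.
(1) The noncommutative rank is at least the generic rank and at most `(2^k - 1) / 2^(k-1)` times the
generic rank.  (2) The hypothesis holds if all but at most `k + 1` of the `A_i` have rank at most `k`.
(3) For `k = 1` both ranks are equal, and in the square case `det ∑ x_i A_i = 0` if and only if
`dim ∑ A_i U < dim U` for some `U`.  (4) Some three matrices of size three and rank at most two have
generic rank two and noncommutative rank three: so the constant `3/2` of (1) for `k = 2` cannot be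
improved, and in (3) the number `k + 1 = 2` of further matrices cannot be replaced by three. -/
theorem result {K : Type*} [Field K] [Infinite K] :
    (∀ {m n σ : Type} [Fintype m] [Fintype n] [Fintype σ] (A : σ → Matrix m n K) (k : ℕ),
      1 ≤ k → SpannedUpTo A k → genericRank A ≤ noncommutativeRank A ∧
        2 ^ (k - 1) * noncommutativeRank A ≤ (2 ^ k - 1) * genericRank A) ∧
    (∀ {m n σ : Type} [Fintype m] [Fintype n] [Fintype σ] (A : σ → Matrix m n K) (k : ℕ)
      (E : Finset σ), E.card ≤ k + 1 → (∀ i, i ∉ E → (A i).rank ≤ k) → SpannedUpTo A k) ∧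
    (∀ {n σ : Type} [Fintype n] [DecidableEq n] [Fintype σ] (A : σ → Matrix n n K),
      SpannedUpTo A 1 → noncommutativeRank A = genericRank A ∧
        ((symbolicMatrix A).det = 0 ↔ HasShrunk A)) ∧
    ∃ A : Fin 3 → Matrix (Fin 3) (Fin 3) K, (∀ i, (A i).rank ≤ 2) ∧
      genericRank A = 2 ∧ noncommutativeRank A = 3 ∧ (symbolicMatrix A).det = 0 ∧
      ¬ HasShrunk A := by
  classical
  refine ⟨fun A k hk h => ⟨le_ncRank A, ratio A hk h⟩,
    fun A k E hE h => spanned_of_finset A E hE h, ?_, ?_⟩
  · intro n σ _ _ _ A h
    have h1 := ratio A le_rfl h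
    have h2 := le_ncRank A
    have h3 : noncommutativeRank A = genericRank A := by
      norm_num at h1
      omega
    exact ⟨h3, by rw [det_iff, shrunk_iff, h3]⟩
  · have hno : ¬ HasShrunk (W981.Hyp.crs K) := by
      rintro ⟨U, hU⟩
      exact absurd (W981.Hyp.crs_images U) (not_le.2 hU)
    have hdet : (symbolicMatrix (W981.Hyp.crs K)).det = 0 := W981.Hyp.crs_det
    have h1 : Fintype.card (Fin 3) ≤ noncommutativeRank (W981.Hyp.crs K) := by
      rw [shrunk_iff, not_lt] at hno
      exact hno
    have h2 : noncommutativeRank (W981.Hyp.crs K) ≤ 3 := by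
      have := ncRank_le (W981.Hyp.crs K) ⊥
      have h3 : imageSpace (W981.Hyp.crs K) ⊥ = ⊥ := by
        rw [eq_bot_iff]
        refine iSup_le fun i => ?_
        rw [Submodule.map_bot]
      rw [h3, finrank_bot, Fintype.card_fin] at this
      omega
    have h3 := ratio (W981.Hyp.crs K) (k := 2) (by norm_num)
      (spanned_of_finset _ ∅ (by simp) fun i _ => crs_rank K i)
    have h4 := det_iff (W981.Hyp.crs K)
    rw [Fintype.card_fin] at h1 h4
    have h5 := h4.1 hdet
    norm_num at h3
    refine ⟨W981.Hyp.crs K, crs_rank K, ?_, ?_, hdet, hno⟩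
    · omega
    · omega

end Pool.Agent.Results.MP_08e617_lc.ZBoundedRankCoefficients
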